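import Pool.Agent.Helper57.TW.Goals

/-! # Packet T74B-SW: primes in progressions to small moduli, one exceptional prime -/

set_option autoImplicit false

open Finset Filter Topology

open scoped Classical ArithmeticFunction

namespace Pool.Agent.Helper64.TW

open Pool.Agent.Helper88.CG (tw pw th)
open Pool.Agent.Helper88.CR (rg)
open Pool.Agent.Helper57.TW (te zx Dv StmtNV StmtIP StmtSW)

theorem log4_pos : 0 < Real.log 4 := Real.log_pos (by norm_num)

theorem tw_nonneg (x n : ℕ) : 0 ≤ tw x n := le_max_left _ _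

theorem tw_le_one (x n : ℕ) : tw x n ≤ 1 := by
  unfold tw
  refine max_le zero_le_one ?_
  have := div_nonneg (abs_nonneg (Real.log (4 * (n : ℝ) / x))) log4_pos.le
  linarith

theorem tw_zero (x n : ℕ) (h : Real.log 4 ≤ |Real.log (4 * (n : ℝ) / x)|) : tw x n = 0 := by
  unfold tw
  refine max_eq_left ?_
  have : 1 ≤ |Real.log (4 * (n : ℝ) / x)| / Real.log 4 := by
    rw [le_div_iff₀ log4_pos, one_mul]
    exact h
  linarith

theorem tw_hi (x n : ℕ) (hx : 1 ≤ x) (h : x ≤ n) : tw x n = 0 := by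
  refine tw_zero x n (le_trans (Real.log_le_log (by norm_num) ?_) (le_abs_self _))
  have hx' : (0 : ℝ) < x := by exact_mod_cast hx
  have h' : (x : ℝ) ≤ n := by exact_mod_cast h
  rw [le_div_iff₀ hx']
  linarith

theorem tw_lo (x n : ℕ) (hx : 1 ≤ x) (hn : 1 ≤ n) (h : 16 * (n : ℝ) ≤ x) : tw x n = 0 := by
  refine tw_zero x n (le_trans ?_ (neg_le_abs _))
  have hx' : (0 : ℝ) < x := by exact_mod_cast hx
  have hn' : (0 : ℝ) < n := by exact_mod_cast hn
  rw [← Real.log_inv]
  refine Real.log_le_log (by norm_num) ?_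
  rw [inv_div, le_div_iff₀ (by positivity)]
  linarith

/-- The rough prime powers in a class, with the wide tent. -/
noncomputable def D1 (x q a : ℕ) : ℝ :=
  ∑ n ∈ (Icc 1 (4 * x)).filter (fun n => n ≡ a [MOD q] ∧ rg (zx x) n),
    ArithmeticFunction.vonMangoldt n * tw x n

theorem zx_le (x : ℕ) (ht : 64 ≤ Real.log x) : 16 * (zx x : ℝ) ≤ x := by
  have hx : (0 : ℝ) < x := by
    rcases Nat.eq_zero_or_pos x with h | h
    · rw [h] at ht
      norm_num at ht
    · exact_mod_cast h
  set t := Real.log x with htd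
  have h1 : (zx x : ℝ) ≤ Real.exp (√t) := Nat.floor_le (Real.exp_pos _).le
  have h2 : √t ≤ t / 8 := by
    rw [Real.sqrt_le_left (by linarith)]
    nlinarith
  have h3 : Real.exp (√t) ≤ Real.exp (t / 8) := Real.exp_le_exp.2 h2
  have h4 : Real.exp (t / 8) * Real.exp (7 * t / 8) = x := by
    rw [← Real.exp_add, show t / 8 + 7 * t / 8 = t by ring, htd, Real.exp_log hx]
  have h5 : 16 ≤ Real.exp (7 * t / 8) := by
    have := Real.add_one_le_exp (7 * t / 8)
    linarith
  have h6 := Real.exp_pos (t / 8)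
  nlinarith

theorem D1_th (x q a : ℕ) (ht : 64 ≤ Real.log x) :
    0 ≤ D1 x q a - Real.log x * th x q a ∧
      D1 x q a - Real.log x * th x q a ≤ 2 * √x * Real.log x := by
  have hx1 : 1 ≤ x := by
    rcases Nat.eq_zero_or_pos x with h | h
    · rw [h] at ht
      norm_num at ht
    · exact h
  have hz := zx_le x ht
  have e1 : Real.log x * th x q a = ∑ n ∈ (Icc 1 x).filter (fun n => n ≡ a [MOD q]),
      (if n.Prime then ArithmeticFunction.vonMangoldt n * tw x n else 0) := by
    unfold th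
    rw [mul_sum]
    refine sum_congr rfl fun n _ => ?_
    unfold pw
    split_ifs with hp
    · rw [ArithmeticFunction.vonMangoldt_apply_prime hp]
      field_simp
    · ring
  have e2 : ∑ n ∈ (Icc 1 x).filter (fun n => n ≡ a [MOD q]),
      (if n.Prime then ArithmeticFunction.vonMangoldt n * tw x n else 0) =
      ∑ n ∈ (Icc 1 (4 * x)).filter (fun n => n ≡ a [MOD q]),
      (if n.Prime then ArithmeticFunction.vonMangoldt n * tw x n else 0) := by
    refine sum_subset ?_ ?_
    · intro n hn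
      simp only [mem_filter, mem_Icc] at hn ⊢
      exact ⟨by omega, hn.2⟩
    · intro n hn hn'
      simp only [mem_filter, mem_Icc] at hn hn'
      have : x ≤ n := by
        by_contra hcon
        exact hn' ⟨by omega, hn.2⟩
      rw [tw_hi x n hx1 this]
      simp
  have e3 : ∑ n ∈ (Icc 1 (4 * x)).filter (fun n => n ≡ a [MOD q] ∧ rg (zx x) n),
      (if n.Prime then ArithmeticFunction.vonMangoldt n * tw x n else 0) =
      ∑ n ∈ (Icc 1 (4 * x)).filter (fun n => n ≡ a [MOD q]),
      (if n.Prime then ArithmeticFunction.vonMangoldt n * tw x n else 0) := by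
    refine sum_subset ?_ ?_
    · intro n hn
      simp only [mem_filter] at hn ⊢
      exact ⟨hn.1, hn.2.1⟩
    · intro n hn hn'
      simp only [mem_filter, mem_Icc] at hn hn'
      split_ifs with hp
      · have h1 : n ≤ zx x := by
          by_contra hcon
          refine hn' ⟨hn.1, hn.2, by omega, fun p hp1 hp2 => ?_⟩
          rw [(Nat.prime_dvd_prime_iff_eq hp1 hp).1 hp2]
          omega
        have h2 : (n : ℝ) ≤ zx x := by exact_mod_cast h1
        rw [tw_lo x n hx1 hn.1.1 (by linarith), mul_zero]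
      · rfl
  have e4 : D1 x q a - Real.log x * th x q a =
      ∑ n ∈ (Icc 1 (4 * x)).filter (fun n => n ≡ a [MOD q] ∧ rg (zx x) n),
      (if n.Prime then 0 else ArithmeticFunction.vonMangoldt n * tw x n) := by
    rw [e1, e2, ← e3]
    unfold D1
    rw [← sum_sub_distrib]
    refine sum_congr rfl fun n _ => ?_
    split_ifs <;> ring
  rw [e4]
  constructor
  · refine sum_nonneg fun n _ => ?_
    split_ifs
    · exact le_rfl
    · exact mul_nonneg ArithmeticFunction.vonMangoldt_nonneg (tw_nonneg _ _)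
  · calc ∑ n ∈ (Icc 1 (4 * x)).filter (fun n => n ≡ a [MOD q] ∧ rg (zx x) n),
          (if n.Prime then 0 else ArithmeticFunction.vonMangoldt n * tw x n)
        ≤ ∑ n ∈ Icc 1 (4 * x), (if n.Prime then 0 else ArithmeticFunction.vonMangoldt n * tw x n) := by
          refine sum_le_sum_of_subset_of_nonneg (filter_subset _ _) fun n _ _ => ?_
          split_ifs
          · exact le_rfl
          · exact mul_nonneg ArithmeticFunction.vonMangoldt_nonneg (tw_nonneg _ _)
      _ = ∑ n ∈ Ioc 0 x, (if n.Prime then 0 else ArithmeticFunction.vonMangoldt n * tw x n) := by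
          symm
          refine sum_subset ?_ ?_
          · intro n hn
            simp only [mem_Ioc, mem_Icc] at hn ⊢
            omega
          · intro n hn hn'
            simp only [mem_Ioc, mem_Icc] at hn hn'
            rw [tw_hi x n hx1 (by omega)]
            simp
      _ ≤ ∑ n ∈ Ioc 0 x, (if n.Prime then 0 else ArithmeticFunction.vonMangoldt n) := by
          refine sum_le_sum fun n _ => ?_
          split_ifs
          · exact le_rfl
          · have := tw_le_one x n
            have h0 : 0 ≤ (ArithmeticFunction.vonMangoldt n : ℝ) :=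
              ArithmeticFunction.vonMangoldt_nonneg
            nlinarith
      _ = Chebyshev.psi x - Chebyshev.theta x := by
          rw [Chebyshev.psi_sub_theta_eq_sum_not_prime, Nat.floor_natCast, sum_filter]
          refine sum_congr rfl fun n _ => ?_
          split_ifs <;> simp_all
      _ ≤ 2 * √x * Real.log x := Chebyshev.psi_sub_theta_le (by exact_mod_cast hx1)

theorem D1_Dv (hIP : StmtIP) (x q a M : ℕ) (hx : 1 ≤ x) (hM : 1 ≤ M) :
    D1 x q a = ∑ i ∈ range (2 * M + 1), (1 - |(i : ℝ) - M| / M) *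
      Dv x q a (x / 16 * Real.exp (i * (Real.log 4 / M))) (Real.log 4 / M) := by
  unfold D1 Dv
  simp_rw [mul_sum]
  rw [sum_comm]
  refine sum_congr rfl fun n hn => ?_
  rw [mem_filter, mem_Icc] at hn
  rw [hIP x n M hx hn.1.1 hM, mul_sum]
  refine sum_congr rfl fun i _ => ?_
  ring

/-- Everything that is needed of a large `x`. -/
theorem large (q0 B : ℕ) (C : ℝ) : ∃ x0 : ℕ, ∀ x : ℕ, x0 ≤ x → 64 ≤ Real.log x ∧
    12 * C ≤ Real.log x ^ 2 ∧
    8 * ((q0 : ℝ) * Real.exp (Real.log x ^ (1 / 3 : ℝ))) * Real.log x ^ B ≤ √x := by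
  have hlog : Tendsto (fun x : ℕ => Real.log x) atTop atTop :=
    Real.tendsto_log_atTop.comp tendsto_natCast_atTop_atTop
  have h1 : ∀ᶠ t : ℝ in atTop, 64 ≤ t := eventually_ge_atTop 64
  have h2 : ∀ᶠ t : ℝ in atTop, 12 * C ≤ t ^ 2 := by
    have : Tendsto (fun t : ℝ => t ^ 2) atTop atTop := tendsto_pow_atTop (by norm_num)
    exact this.eventually_ge_atTop _
  have h3 : ∀ᶠ t : ℝ in atTop, 8 * q0 * t ^ B ≤ Real.exp (t / 4) := by
    have h4 := isLittleO_pow_exp_pos_mul_atTop B (b := 1 / 4) (by norm_num)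
    have h5 := h4.bound (c := 1 / (8 * q0 + 1)) (by positivity)
    filter_upwards [h5, eventually_ge_atTop 0] with t ht ht0
    rw [Real.norm_of_nonneg (by positivity), Real.norm_of_nonneg (Real.exp_pos _).le,
      one_div_mul_eq_div, le_div_iff₀ (by positivity)] at ht
    have h6 : 0 ≤ t ^ B := by positivity
    rw [show t / 4 = 1 / 4 * t by ring]
    nlinarith
  have := hlog.eventually (h1.and (h2.and h3))
  obtain ⟨x0, hx0⟩ := eventually_atTop.1 this
  refine ⟨x0, fun x hx => ?_⟩
  obtain ⟨ht, h2', h3'⟩ := hx0 x hx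
  refine ⟨ht, h2', ?_⟩
  have hx : (0 : ℝ) < x := by
    rcases Nat.eq_zero_or_pos x with h | h
    · rw [h] at ht
      norm_num at ht
    · exact_mod_cast h
  set t := Real.log x with htd
  have h4 : t ^ (1 / 3 : ℝ) ≤ t / 8 := by
    have h5 : t ^ (1 / 3 : ℝ) ≤ t ^ (1 / 2 : ℝ) :=
      Real.rpow_le_rpow_of_exponent_le (by linarith) (by norm_num)
    rw [← Real.sqrt_eq_rpow] at h5
    have h6 : √t ≤ t / 8 := by
      rw [Real.sqrt_le_left (by linarith)]
      nlinarith
    exact h5.trans h6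
  have h5 : √(x : ℝ) = Real.exp (t / 2) := by
    rw [Real.sqrt_eq_iff_mul_self_eq hx.le (Real.exp_pos _).le, ← Real.exp_add,
      show t / 2 + t / 2 = t by ring, htd, Real.exp_log hx]
  rw [h5, show t / 2 = t / 4 + t / 4 by ring, Real.exp_add]
  have h6 : Real.exp (t ^ (1 / 3 : ℝ)) ≤ Real.exp (t / 4) := Real.exp_le_exp.2 (by linarith)
  have h7 : 0 ≤ 8 * (q0 : ℝ) * t ^ B := by positivity
  calc 8 * ((q0 : ℝ) * Real.exp (t ^ (1 / 3 : ℝ))) * t ^ B
      = (8 * q0 * t ^ B) * Real.exp (t ^ (1 / 3 : ℝ)) := by ring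
    _ ≤ Real.exp (t / 4) * Real.exp (t / 4) := by
        apply mul_le_mul h3' h6 (Real.exp_pos _).le (Real.exp_pos _).le

/-- PACKET SW. -/
theorem sw (hNV : StmtNV) (hIP : StmtIP) : StmtSW := by
  intro q0 N B hq0
  obtain ⟨C, hC, x1, h1⟩ := hNV q0 N (B + 3) hq0
  obtain ⟨x2, h2⟩ := large q0 B C
  refine ⟨max x1 x2, fun x hx => ?_⟩
  obtain ⟨ht, hC2, hsq⟩ := h2 x ((le_max_right _ _).trans hx)
  obtain ⟨p0, hp0, hN, hpq, hmain⟩ := h1 x ((le_max_left _ _).trans hx)
  refine ⟨p0, hp0, hN, hpq, fun d hd hpd hdx a ha => ?_⟩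
  have hx1 : 1 ≤ x := by
    rcases Nat.eq_zero_or_pos x with h | h
    · rw [h] at ht
      norm_num at ht
    · exact h
  have hxr : (1 : ℝ) ≤ x := by exact_mod_cast hx1
  have hM := hmain d hd hpd hdx a ha
  clear hmain h1 h2
  have hd0 : 0 < d := Nat.pos_of_ne_zero hd.ne_zero
  set q := q0 * d with hq
  have hqpos : 0 < q := Nat.mul_pos hq0 hd0
  set t := Real.log x with htd
  set φ : ℝ := (Nat.totient q : ℝ) with hφ
  have hφ1 : 1 ≤ φ := by
    rw [hφ]
    exact_mod_cast Nat.totient_pos.2 hqpos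
  have hφ2 : φ ≤ (q0 : ℝ) * Real.exp (t ^ (1 / 3 : ℝ)) := by
    have : (Nat.totient q : ℝ) ≤ q := by exact_mod_cast Nat.totient_le q
    refine this.trans ?_
    rw [hq]
    push_cast
    exact mul_le_mul_of_nonneg_left hdx (by positivity)
  set M := ⌈t ^ (B + 2)⌉₊ with hMd
  have htp : (1 : ℝ) ≤ t ^ (B + 2) := one_le_pow₀ (by linarith)
  have htp2 : (64 : ℝ) ≤ t ^ (B + 2) := by
    calc (64 : ℝ) ≤ t := ht
      _ = t ^ 1 := (pow_one t).symm
      _ ≤ t ^ (B + 2) := pow_le_pow_right₀ (by linarith) (by omega)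
  have hM1 : t ^ (B + 2) ≤ M := Nat.le_ceil _
  have hM2 : (M : ℝ) ≤ t ^ (B + 2) + 1 := (Nat.ceil_lt_add_one (by linarith)).le
  have hMpos : (64 : ℝ) ≤ M := htp2.trans hM1
  have hMn : 1 ≤ M := by
    have : (1 : ℝ) ≤ M := by linarith
    exact_mod_cast this
  set η := Real.log 4 / M with hη
  have hl4 : Real.log 4 ≤ 1.4 := by
    have h : Real.log 4 = 2 * Real.log 2 := by
      rw [show (4 : ℝ) = 2 ^ 2 by norm_num, Real.log_pow]
      norm_num
    have := Real.log_two_lt_d9
    rw [h]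
    linarith
  have hl4' : 1 ≤ Real.log 4 := by
    have h : Real.log 4 = 2 * Real.log 2 := by
      rw [show (4 : ℝ) = 2 ^ 2 by norm_num, Real.log_pow]
      norm_num
    have := Real.log_two_gt_d9
    rw [h]
    linarith
  have hM0 : (0 : ℝ) < M := by linarith
  have hη0 : 0 < η := div_pos log4_pos hM0
  have hη1 : η ≤ 1 := by
    rw [hη, div_le_one hM0]
    linarith
  have hηB : 1 / t ^ (B + 3) ≤ η := by
    rw [hη, div_le_div_iff₀ (by positivity) hM0, one_mul]
    have h1 : t ^ (B + 3) = t * t ^ (B + 2) := by ring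
    rw [h1]
    have h2 : 0 ≤ t ^ (B + 2) := by linarith
    have h3 : (64 : ℝ) * t ^ (B + 2) ≤ t * t ^ (B + 2) := mul_le_mul_of_nonneg_right ht h2
    have h4 : 1 * (t * t ^ (B + 2)) ≤ Real.log 4 * (t * t ^ (B + 2)) :=
      mul_le_mul_of_nonneg_right hl4' (by positivity)
    linarith
  set E : ℝ := C * η ^ 2 * (x * t) / φ with hE
  have hE0 : 0 ≤ E := by positivity
  have key : |D1 x q a - D1 x 1 0 / φ| ≤ (2 * M + 1) * E := by
    rw [D1_Dv hIP x q a M hx1 hMn, D1_Dv hIP x 1 0 M hx1 hMn, sum_div, ← sum_sub_distrib]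
    refine (abs_sum_le_sum_abs _ _).trans ?_
    have hb : ∀ i ∈ range (2 * M + 1),
        |(1 - |(i : ℝ) - M| / M) * Dv x q a (x / 16 * Real.exp (i * (Real.log 4 / M))) (Real.log 4 / M)
          - (1 - |(i : ℝ) - M| / M) * Dv x 1 0 (x / 16 * Real.exp (i * (Real.log 4 / M)))
            (Real.log 4 / M) / φ| ≤ E := by
      intro i hi
      rw [mem_range] at hi
      have hi' : (i : ℝ) ≤ 2 * M := by
        have : i ≤ 2 * M := by omega
        exact_mod_cast this
      have hi0 : (0 : ℝ) ≤ i := Nat.cast_nonneg i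
      have h1 : 0 ≤ 1 - |(i : ℝ) - M| / M := by
        rw [sub_nonneg, div_le_one hM0, abs_le]
        constructor <;> linarith
      have h2 : 1 - |(i : ℝ) - M| / M ≤ 1 := by
        have := div_nonneg (abs_nonneg ((i : ℝ) - M)) hM0.le
        linarith
      have h3 : (x : ℝ) / 16 ≤ x / 16 * Real.exp (i * (Real.log 4 / M)) := by
        have : 1 ≤ Real.exp (i * (Real.log 4 / M)) := Real.one_le_exp (by positivity)
        nlinarith
      have h4 : (x : ℝ) / 16 * Real.exp (i * (Real.log 4 / M)) ≤ x := by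
        have h5 : (i : ℝ) * (Real.log 4 / M) ≤ 2 * Real.log 4 := by
          rw [← mul_div_assoc, div_le_iff₀ hM0]
          nlinarith
        have h6 : Real.exp (i * (Real.log 4 / M)) ≤ 16 := by
          refine (Real.exp_le_exp.2 h5).trans ?_
          rw [show 2 * Real.log 4 = Real.log 16 by
            rw [show (16 : ℝ) = 4 ^ 2 by norm_num, Real.log_pow]; norm_num,
            Real.exp_log (by norm_num)]
        nlinarith
      have h5 := hM (x / 16 * Real.exp (i * (Real.log 4 / M))) η h3 h4 hηB hη1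
      rw [mul_div_assoc, ← mul_sub, abs_mul, abs_of_nonneg h1]
      calc (1 - |(i : ℝ) - M| / M) * |_| ≤ 1 * E :=
            mul_le_mul h2 h5 (abs_nonneg _) zero_le_one
        _ = E := one_mul _
    refine (sum_le_sum hb).trans ?_
    rw [sum_const, card_range, nsmul_eq_mul]
    push_cast
    exact le_rfl
  have hEb : (2 * M + 1) * E ≤ 6 * C * x / (t ^ (B + 1) * φ) := by
    have h1 : (2 * (M : ℝ) + 1) * η ^ 2 ≤ 6 / t ^ (B + 2) := by
      rw [hη, div_pow, ← mul_div_assoc, div_le_div_iff₀ (by positivity) (by positivity)]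
      have h2 : Real.log 4 ^ 2 ≤ 2 := by nlinarith
      have h3 : (2 * (M : ℝ) + 1) ≤ 3 * M := by linarith
      have h4 : 0 ≤ Real.log 4 ^ 2 := by positivity
      calc (2 * (M : ℝ) + 1) * Real.log 4 ^ 2 * t ^ (B + 2) ≤ (3 * M) * 2 * M := by
            gcongr
        _ = 6 * M ^ 2 := by ring
    rw [hE]
    calc (2 * (M : ℝ) + 1) * (C * η ^ 2 * (x * t) / φ)
        = ((2 * (M : ℝ) + 1) * η ^ 2) * (C * (x * t) / φ) := by ring
      _ ≤ (6 / t ^ (B + 2)) * (C * (x * t) / φ) := by
          apply mul_le_mul_of_nonneg_right h1 (by positivity)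
      _ = 6 * C * x / (t ^ (B + 1) * φ) := by
          field_simp
          ring
  obtain ⟨a1, a2⟩ := D1_th x q a ht
  obtain ⟨b1, b2⟩ := D1_th x 1 0 ht
  rw [← htd] at a1 a2 b1 b2
  have hsq2 : 8 * φ * t ^ B ≤ √x :=
    le_trans (by gcongr) hsq
  have hs0 : 0 < √(x : ℝ) := Real.sqrt_pos.2 (by linarith)
  have hss : √(x : ℝ) * √x = x := Real.mul_self_sqrt (by linarith)
  -- the sum
  have g1 : |t * (th x q a - th x 1 0 / φ)| ≤ 6 * C * x / (t ^ (B + 1) * φ) + 4 * √x * t := by
    have h1 : t * (th x q a - th x 1 0 / φ) = (D1 x q a - D1 x 1 0 / φ)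
        - (D1 x q a - t * th x q a) + (D1 x 1 0 - t * th x 1 0) / φ := by
      field_simp
      ring
    have h2 : |D1 x q a - t * th x q a| ≤ 2 * √x * t := by
      rw [abs_of_nonneg a1]
      exact a2
    have h3 : |(D1 x 1 0 - t * th x 1 0) / φ| ≤ 2 * √x * t := by
      rw [abs_of_nonneg (by positivity), div_le_iff₀ (by linarith)]
      refine b2.trans ?_
      have : 0 ≤ 2 * √(x : ℝ) * t := by positivity
      nlinarith
    rw [h1]
    calc |(D1 x q a - D1 x 1 0 / φ) - (D1 x q a - t * th x q a) + (D1 x 1 0 - t * th x 1 0) / φ|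
        ≤ |D1 x q a - D1 x 1 0 / φ| + |D1 x q a - t * th x q a|
          + |(D1 x 1 0 - t * th x 1 0) / φ| :=
          (abs_add_le _ _).trans (add_le_add (abs_sub _ _) le_rfl)
      _ ≤ (2 * M + 1) * E + 2 * √x * t + 2 * √x * t := by gcongr
      _ ≤ 6 * C * x / (t ^ (B + 1) * φ) + 4 * √x * t := by linarith
  have g2 : 6 * C * x / (t ^ (B + 1) * φ) ≤ t * (x / t ^ B / φ) / 2 := by
    rw [div_div, ← mul_div_assoc, div_div, div_le_div_iff₀ (by positivity) (by positivity)]
    have h1 : 6 * C * x * (t ^ B * φ * 2) = (12 * C) * (x * t ^ B * φ) := by ring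
    have h2 : t * x * (t ^ (B + 1) * φ) = t ^ 2 * (x * t ^ B * φ) := by ring
    rw [h1, h2]
    exact mul_le_mul_of_nonneg_right hC2 (by positivity)
  have g3 : 4 * √x * t ≤ t * (x / t ^ B / φ) / 2 := by
    rw [div_div, ← mul_div_assoc, div_div, le_div_iff₀ (by positivity)]
    calc 4 * √x * t * (t ^ B * φ * 2) = (t * √x) * (8 * φ * t ^ B) := by ring
      _ ≤ (t * √x) * √x := mul_le_mul_of_nonneg_left hsq2 (by positivity)
      _ = t * x := by rw [mul_assoc, hss]
  have g4 : t * |th x q a - th x 1 0 / φ| ≤ t * (x / t ^ B / φ) := by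
    rw [abs_mul, abs_of_nonneg (by linarith)] at g1
    linarith
  exact le_of_mul_le_mul_left g4 (by linarith)

end Pool.Agent.Helper64.TW
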