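import Pool.Agent.Helper83.TW.Goals1

/-! # Packet TW-GNewO -/

set_option autoImplicit false

namespace Helper64TW

open Complex Set Pool.Agent.Helper83.TW

/-! ### Elementary facts on `D1`, `D2` -/

theorem slice1 {f : ℂ × ℂ → ℂ} {U : Set (ℂ × ℂ)} (hU : IsOpen U) (hf : DifferentiableOn ℂ f U)
    {p : ℂ × ℂ} (hp : p ∈ U) : DifferentiableAt ℂ (fun z => f (z, p.2)) p.1 := by
  have h1 : DifferentiableAt ℂ f (p.1, p.2) := (hf.differentiableAt (hU.mem_nhds hp))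
  have h2 : DifferentiableAt ℂ (fun z : ℂ => ((z, p.2) : ℂ × ℂ)) p.1 := by fun_prop
  exact DifferentiableAt.comp (g := f) p.1 h1 h2

theorem slice2 {f : ℂ × ℂ → ℂ} {U : Set (ℂ × ℂ)} (hU : IsOpen U) (hf : DifferentiableOn ℂ f U)
    {p : ℂ × ℂ} (hp : p ∈ U) : DifferentiableAt ℂ (fun z => f (p.1, z)) p.2 := by
  have h1 : DifferentiableAt ℂ f (p.1, p.2) := (hf.differentiableAt (hU.mem_nhds hp))
  have h2 : DifferentiableAt ℂ (fun z : ℂ => ((p.1, z) : ℂ × ℂ)) p.2 := by fun_prop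
  exact DifferentiableAt.comp (g := f) p.2 h1 h2

theorem D1_sub {f g : ℂ × ℂ → ℂ} {U : Set (ℂ × ℂ)} (hU : IsOpen U)
    (hf : DifferentiableOn ℂ f U) (hg : DifferentiableOn ℂ g U) {p : ℂ × ℂ} (hp : p ∈ U) :
    D1 (fun q => f q - g q) p = D1 f p - D1 g p := by
  unfold D1
  exact deriv_fun_sub (slice1 hU hf hp) (slice1 hU hg hp)

theorem D2_sub {f g : ℂ × ℂ → ℂ} {U : Set (ℂ × ℂ)} (hU : IsOpen U)
    (hf : DifferentiableOn ℂ f U) (hg : DifferentiableOn ℂ g U) {p : ℂ × ℂ} (hp : p ∈ U) :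
    D2 (fun q => f q - g q) p = D2 f p - D2 g p := by
  unfold D2
  exact deriv_fun_sub (slice2 hU hf hp) (slice2 hU hg hp)

theorem D1_congr {f g : ℂ × ℂ → ℂ} {U : Set (ℂ × ℂ)} (hU : IsOpen U)
    (h : ∀ p ∈ U, f p = g p) {p : ℂ × ℂ} (hp : p ∈ U) : D1 f p = D1 g p := by
  unfold D1
  apply Filter.EventuallyEq.deriv_eq
  have hc : Continuous (fun z : ℂ => ((z, p.2) : ℂ × ℂ)) := by fun_prop
  have hn : (fun z : ℂ => ((z, p.2) : ℂ × ℂ)) ⁻¹' U ∈ nhds p.1 :=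
    hc.continuousAt.preimage_mem_nhds (hU.mem_nhds hp)
  filter_upwards [hn] with z hz
  exact h _ hz

theorem D11_sub (hD : GD12) {f g : ℂ × ℂ → ℂ} {U : Set (ℂ × ℂ)} (hU : IsOpen U)
    (hf : DifferentiableOn ℂ f U) (hg : DifferentiableOn ℂ g U) {p : ℂ × ℂ} (hp : p ∈ U) :
    D1 (D1 (fun q => f q - g q)) p = D1 (D1 f) p - D1 (D1 g) p := by
  rw [D1_congr hU (fun q hq => D1_sub hU hf hg hq) hp]
  exact D1_sub hU (hD f U hU hf).1 (hD g U hU hg).1 hp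

/-- mean value inequality in the first variable -/
theorem mv {f : ℂ × ℂ → ℂ} {r s c : ℝ} (hf : DifferentiableOn ℂ f (Dom r s))
    (hb : ∀ p ∈ Dom r s, ‖D1 f p‖ ≤ c) {x y w : ℂ} (hx : (x, w) ∈ Dom r s)
    (hy : (y, w) ∈ Dom r s) : ‖f (y, w) - f (x, w)‖ ≤ c * ‖y - x‖ := by
  have hconv : Convex ℝ {z : ℂ | |z.im| < r} := by
    have h1 : Convex ℝ {z : ℂ | z.im < r} := convex_halfSpace_im_lt r
    have h2 : Convex ℝ {z : ℂ | -r < z.im} := convex_halfSpace_im_gt (-r)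
    have h3 : {z : ℂ | |z.im| < r} = {z : ℂ | -r < z.im} ∩ {z : ℂ | z.im < r} := by
      ext z
      simp [abs_lt]
    rw [h3]
    exact h2.inter h1
  have hmem : ∀ z ∈ {z : ℂ | |z.im| < r}, (z, w) ∈ Dom r s := fun z hz => ⟨hz, hx.2⟩
  refine Convex.norm_image_sub_le_of_norm_deriv_le (f := fun z => f (z, w))
    (s := {z : ℂ | |z.im| < r}) (fun z hz => ?_) (fun z hz => ?_) hconv hx.1 hy.1
  · exact slice1 (isOpen_Dom r s) hf (hmem z hz)
  · exact hb (z, w) (hmem z hz)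

/-- norm bound on `Om` -/
theorem Om_norm {s : ℝ} (hs : s ≤ 1/512) {w : ℂ} (h : w ∈ Om s) : ‖w‖ ≤ 2.01 := by
  obtain ⟨h1, h2, h3⟩ := h
  have h4 : |w.re| < 2 + s := by
    rw [abs_lt]
    constructor <;> linarith
  have h5 : ‖w‖ ≤ |w.re| + |w.im| := Complex.norm_le_abs_re_add_abs_im w
  linarith

/-- numerical facts -/
structure Nf (ρ r s δ Λ η c : ℝ) : Prop where
  e0 : 0 ≤ Λ^5 * η
  e1 : 4 * (Λ^5 * η) ≤ δ
  Λ0 : 0 < Λ
  δ0 : 0 < δ
  s0 : 0 < s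
  sδ : s ≤ δ
  s1 : s ≤ 1/512
  c1 : c ≤ 1/256
  l2 : Λ^2 * η ≤ 1/1024
  b : ∀ (C : ℝ) (k : ℕ), 0 ≤ C → C ≤ 1024 → k ≤ 9 → C * (Λ^k * η) ≤ Λ^10 * η
  iδ : 1/δ ≤ Λ
  is : 1/s ≤ Λ
  r13 : 0 < r - 8*δ

theorem nf {ρ r s δ Λ η c : ℝ} {M : ℕ} (P : Prm ρ r s δ Λ η M) (hc : c ≤ ρ/64) :
    Nf ρ r s δ Λ η c := by
  have hΛ := P.hΛ
  have hΛ0 : 0 < Λ := by linarith
  have hΛ1 : 1 ≤ Λ := by linarith
  have hη := P.hη0
  have h40 := P.hη
  have hΛδ := P.M_le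
  have hρ1 := P.hρ1
  have hδ1 := P.hδ1
  have hs1 := P.hs1
  have hpow : ∀ k : ℕ, 1 ≤ k → Λ ≤ Λ^k := fun k hk => by
    calc Λ = Λ^1 := (pow_one Λ).symm
      _ ≤ Λ^k := pow_le_pow_right₀ hΛ1 hk
  have hs512 : s ≤ 1/512 := by linarith
  refine ⟨by positivity, ?_, hΛ0, P.hδ0, P.hs0, hs1, hs512, by linarith, ?_, ?_, ?_, ?_, ?_⟩
  · have h1 : (4 * (Λ^5 * η)) * Λ ≤ 1 := by
      calc (4 * (Λ^5 * η)) * Λ ≤ (Λ^34 * (Λ^5 * η)) * Λ := by
            have : (4:ℝ) ≤ Λ^34 := le_trans (by linarith) (hpow 34 (by norm_num))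
            gcongr
        _ = Λ^40 * η := by ring
        _ ≤ 1 := h40
    have h2 : (4 * (Λ^5 * η)) * Λ ≤ δ * Λ := by
      rw [mul_comm δ]
      linarith
    exact le_of_mul_le_mul_right h2 hΛ0
  · have h1 : 1024 * (Λ^2 * η) ≤ 1 := by
      calc 1024 * (Λ^2 * η) ≤ Λ^38 * (Λ^2 * η) := by
            have : (1024:ℝ) ≤ Λ^38 := le_trans hΛ (hpow 38 (by norm_num))
            gcongr
        _ = Λ^40 * η := by ring
        _ ≤ 1 := h40
    linarith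
  · intro C k hC0 hC hk
    calc C * (Λ^k * η) ≤ Λ * (Λ^k * η) := by
          have : C ≤ Λ := by linarith
          gcongr
      _ = Λ^(k+1) * η := by ring
      _ ≤ Λ^10 * η := by
          have : Λ^(k+1) ≤ Λ^10 := pow_le_pow_right₀ hΛ1 (by omega)
          gcongr
  · rw [div_le_iff₀ P.hδ0]
    exact hΛδ
  · rw [div_le_iff₀ P.hs0]
    exact P.hΛs
  · have h1 := P.hr0
    have h2 := P.hρ0
    linarith

theorem newO : GNewI → GD12 → GHolD → GCau → GTT → GNewO := by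
  intro hI hD hHD hC hT ρ r s δ Λ η M P S c hS hc κ E0 τ hCor hTau
  have N := nf P hc
  obtain ⟨hT1, hT2, hT3, hT4⟩ := hT ρ r s δ Λ η M P S c hS hc κ E0 hCor
  obtain ⟨hI2, hI3⟩ := hI ρ r s δ Λ η M P S c hS hc κ E0 τ hCor hTau
  have e0 := N.e0
  have e1 := N.e1
  have hδ0 := N.δ0
  have hs0 := N.s0
  have hc0 := hS.c0
  have hc1 := N.c1
  -- the domain
  set A : Set (ℂ × ℂ) := Dom (r - 13/2*δ) (3*s/8) with hA
  have hAo : IsOpen A := isOpen_Dom _ _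
  have hAr : A ⊆ Dom r s := Dom_mono (by linarith) (by linarith)
  have hq6 : ∀ p ∈ A, (p.1 + τ p, p.2) ∈ Dom (r - 6*δ) (3*s/8) := by
    intro p hp
    refine ⟨?_, hp.2⟩
    have h1 : |(p.1 + τ p).im| ≤ |p.1.im| + |(τ p).im| := by
      rw [add_im]
      exact abs_add_le _ _
    have h2 : |(τ p).im| ≤ ‖τ p‖ := Complex.abs_im_le_norm _
    have h3 := hTau.bτ p hp
    have h4 : |p.1.im| < r - 13/2*δ := hp.1
    change |(p.1 + τ p).im| < r - 6*δ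
    linarith
  have h65 : Dom (r - 6*δ) (3*s/8) ⊆ Dom (r - 5*δ) (s/2) := Dom_mono (by linarith) (by linarith)
  have h6r : Dom (r - 6*δ) (3*s/8) ⊆ Dom r s := Dom_mono (by linarith) (by linarith)
  have hqr : ∀ p ∈ A, (p.1 + τ p, p.2) ∈ Dom r s := fun p hp => h6r (hq6 p hp)
  have hτd : DifferentiableOn ℂ τ A := hTau.hτ.diff
  have hqd : DifferentiableOn ℂ (fun p : ℂ × ℂ => ((p.1 + τ p, p.2) : ℂ × ℂ)) A :=
    (differentiableOn_fst.add hτd).prodMk differentiableOn_snd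
  have hτper : ∀ p ∈ A, τ (p.1 + 1, p.2) = τ p := hTau.hτ.per
  have hτsym : ∀ p ∈ A, τ (cj p.1, cj p.2) = cj (τ p) := hTau.hτ.sym
  have hcomp : ∀ f : ℂ × ℂ → ℂ, Hol f (Dom (r - 6*δ) (3*s/8)) →
      Hol (fun p => f (p.1 + τ p, p.2)) A := by
    intro f hf
    refine ⟨?_, fun p hp => ?_, fun p hp => ?_⟩
    · exact hf.diff.comp hqd hq6
    · change f (p.1 + 1 + τ (p.1 + 1, p.2), p.2) = f (p.1 + τ p, p.2)
      rw [hτper p hp]
      have h1 := hf.per _ (hq6 p hp)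
      rw [← h1]
      congr 2
      ring
    · change f (cj p.1 + τ (cj p.1, cj p.2), cj p.2) = cj (f (p.1 + τ p, p.2))
      rw [hτsym p hp]
      have h1 := hf.sym _ (hq6 p hp)
      rw [← h1]
      congr 2
      simp
  have hE1 : Hol1 (deriv E0) (Om s) := hHD.2 E0 s hCor.hE
  -- holomorphy of the new state on A
  have hu' : Hol (newS S κ E0 τ).u A := by
    have h1 := hcomp S.u (hS.hu.mono h6r)
    refine ⟨hτd.add h1.diff, fun p hp => ?_, fun p hp => ?_⟩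
    · change τ (p.1 + 1, p.2) + S.u (p.1 + 1 + τ (p.1 + 1, p.2), p.2) = τ p + S.u (p.1 + τ p, p.2)
      have h2 := h1.per p hp
      simp only at h2
      rw [h2, hτper p hp]
    · change τ (cj p.1, cj p.2) + S.u (cj p.1 + τ (cj p.1, cj p.2), cj p.2)
        = cj (τ p + S.u (p.1 + τ p, p.2))
      have h2 := h1.sym p hp
      simp only at h2
      rw [h2, hτsym p hp]
      exact (map_add (starRingEnd ℂ) _ _).symm
  have hAs : ∀ p ∈ A, p.2 ∈ Om s := fun p hp => (hAr hp).2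
  have hv' : Hol (newS S κ E0 τ).v A := by
    have h1 := hcomp S.v (hS.hv.mono h6r)
    have h1k := hcomp κ (hCor.hκ.mono h65)
    have ha2 : DifferentiableOn ℂ (fun p : ℂ × ℂ => S.a p.2) A :=
      hS.ha.diff.comp differentiableOn_snd hAs
    have hE2 : DifferentiableOn ℂ (fun p : ℂ × ℂ => deriv E0 p.2) A :=
      hE1.diff.comp differentiableOn_snd hAs
    refine ⟨(((ha2.add hE2).mul hτd).add h1.diff).add h1k.diff, fun p hp => ?_, fun p hp => ?_⟩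
    · change (S.a p.2 + deriv E0 p.2) * τ (p.1 + 1, p.2)
          + S.v (p.1 + 1 + τ (p.1 + 1, p.2), p.2) + κ (p.1 + 1 + τ (p.1 + 1, p.2), p.2)
        = (S.a p.2 + deriv E0 p.2) * τ p + S.v (p.1 + τ p, p.2) + κ (p.1 + τ p, p.2)
      have h2 := h1.per p hp
      have h3 := h1k.per p hp
      simp only at h2 h3
      rw [h2, h3, hτper p hp]
    · change (S.a (cj p.2) + deriv E0 (cj p.2)) * τ (cj p.1, cj p.2)
          + S.v (cj p.1 + τ (cj p.1, cj p.2), cj p.2) + κ (cj p.1 + τ (cj p.1, cj p.2), cj p.2)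
        = cj ((S.a p.2 + deriv E0 p.2) * τ p + S.v (p.1 + τ p, p.2) + κ (p.1 + τ p, p.2))
      have h2 := h1.sym p hp
      have h3 := h1k.sym p hp
      simp only at h2 h3
      rw [h2, h3, hτsym p hp, hS.ha.sym _ (hAs p hp), hE1.sym _ (hAs p hp)]
      simp only [map_add, map_mul]
  -- differences
  have hdu : ∀ p ∈ A, ‖(newS S κ E0 τ).u p - S.u p‖ ≤ 2 * (Λ^5 * η) := by
    intro p hp
    have h1 := hTau.bτ p hp
    have h2 : ‖S.u (p.1 + τ p, p.2) - S.u (p.1, p.2)‖ ≤ c * ‖p.1 + τ p - p.1‖ :=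
      mv hS.hu.diff hS.bu1 (hAr hp) (hqr p hp)
    rw [add_sub_cancel_left] at h2
    have h3 : c * ‖τ p‖ ≤ 1 * ‖τ p‖ := mul_le_mul_of_nonneg_right (by linarith) (norm_nonneg _)
    have h4 : (newS S κ E0 τ).u p - S.u p
        = τ p + (S.u (p.1 + τ p, p.2) - S.u (p.1, p.2)) := by
      change τ p + S.u (p.1 + τ p, p.2) - S.u p = _
      ring
    rw [h4]
    calc ‖τ p + (S.u (p.1 + τ p, p.2) - S.u (p.1, p.2))‖
        ≤ ‖τ p‖ + ‖S.u (p.1 + τ p, p.2) - S.u (p.1, p.2)‖ := norm_add_le _ _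
      _ ≤ 2 * (Λ^5 * η) := by linarith
  have hΛ32 : Λ^3 * η ≤ Λ^5 * η := by
    have : Λ^3 ≤ Λ^5 := pow_le_pow_right₀ (by linarith [P.hΛ]) (by norm_num)
    exact mul_le_mul_of_nonneg_right this P.hη0.le
  have hdv : ∀ p ∈ A, ‖(newS S κ E0 τ).v p - S.v p‖ ≤ 5 * (Λ^5 * η) := by
    intro p hp
    have h1 := hTau.bτ p hp
    have h2 : ‖S.v (p.1 + τ p, p.2) - S.v (p.1, p.2)‖ ≤ c * ‖p.1 + τ p - p.1‖ :=
      mv hS.hv.diff hS.bv1 (hAr hp) (hqr p hp)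
    rw [add_sub_cancel_left] at h2
    have h3 : c * ‖τ p‖ ≤ 1 * ‖τ p‖ := mul_le_mul_of_nonneg_right (by linarith) (norm_nonneg _)
    have hk : ‖κ (p.1 + τ p, p.2)‖ ≤ Λ^3 * η := hCor.bκ _ (h65 (hq6 p hp))
    have hw : p.2 ∈ Om s := hAs p hp
    have hw2 : p.2 ∈ Om (s/2) := Om_mono (by linarith) hp.2
    have ha1 := hS.ba _ hw
    have hw3 := Om_norm N.s1 hw
    have hE3 := (hT3 _ hw2).1
    have hl2 := N.l2
    have ha2 : ‖S.a p.2 + deriv E0 p.2‖ ≤ 2.1 := by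
      have : S.a p.2 + deriv E0 p.2 = (S.a p.2 - p.2) + p.2 + deriv E0 p.2 := by ring
      rw [this]
      calc ‖(S.a p.2 - p.2) + p.2 + deriv E0 p.2‖
          ≤ ‖S.a p.2 - p.2‖ + ‖p.2‖ + ‖deriv E0 p.2‖ := norm_add₃_le
        _ ≤ 2.1 := by linarith
    have ha3 : ‖(S.a p.2 + deriv E0 p.2) * τ p‖ ≤ 2.1 * (Λ^5 * η) := by
      rw [norm_mul]
      exact mul_le_mul ha2 h1 (norm_nonneg _) (by norm_num)
    have h4 : (newS S κ E0 τ).v p - S.v p
        = (S.a p.2 + deriv E0 p.2) * τ p + (S.v (p.1 + τ p, p.2) - S.v (p.1, p.2))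
          + κ (p.1 + τ p, p.2) := by
      change (S.a p.2 + deriv E0 p.2) * τ p + S.v (p.1 + τ p, p.2) + κ (p.1 + τ p, p.2) - S.v p = _
      ring
    rw [h4]
    calc ‖(S.a p.2 + deriv E0 p.2) * τ p + (S.v (p.1 + τ p, p.2) - S.v (p.1, p.2))
          + κ (p.1 + τ p, p.2)‖
        ≤ ‖(S.a p.2 + deriv E0 p.2) * τ p‖ + ‖S.v (p.1 + τ p, p.2) - S.v (p.1, p.2)‖
          + ‖κ (p.1 + τ p, p.2)‖ := norm_add₃_le
      _ ≤ 5 * (Λ^5 * η) := by linarith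
  -- Cauchy estimates for a difference
  have hcau : ∀ (f f' : ℂ × ℂ → ℂ) (K : ℝ), 0 ≤ K → K ≤ 5 → DifferentiableOn ℂ f A →
      DifferentiableOn ℂ f' A → (∀ p ∈ A, ‖f' p - f p‖ ≤ K * (Λ^5 * η)) →
      ∀ p ∈ Dom (r - 8*δ) (s/4), ‖f' p - f p‖ ≤ Λ^10 * η ∧ ‖D1 f' p - D1 f p‖ ≤ Λ^10 * η ∧
        ‖D2 f' p - D2 f p‖ ≤ Λ^10 * η ∧ ‖D1 (D1 f') p - D1 (D1 f) p‖ ≤ Λ^10 * η := by
    intro f f' K hK0 hK hf hf' hb p hp
    have hpA : p ∈ A := Dom_mono (by linarith) (by linarith) hp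
    have hg : DifferentiableOn ℂ (fun q => f' q - f q) A := hf'.sub hf
    have hiδ := N.iδ
    have his := N.is
    have hδi : 0 < 1/δ := by positivity
    have hsi : 0 < 1/s := by positivity
    have h1 : ∀ q ∈ Dom (r - 29/4*δ) (3*s/8), ‖D1 (fun q => f' q - f q) q‖
        ≤ K * (Λ^5 * η) / (3/4*δ) := by
      intro q hq
      refine hC.2.1 (fun q => f' q - f q) (K * (Λ^5 * η)) (r - 13/2*δ) (3*s/8) (3/4*δ)
        (by positivity) hg hb q ?_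
      have : r - 13/2*δ - 3/4*δ = r - 29/4*δ := by ring
      rw [this]
      exact hq
    have hD1 : DifferentiableOn ℂ (D1 (fun q => f' q - f q)) (Dom (r - 29/4*δ) (3*s/8)) :=
      (hD _ A hAo hg).1.mono (Dom_mono (by linarith) le_rfl)
    have h2 : ‖D1 (D1 (fun q => f' q - f q)) p‖ ≤ K * (Λ^5 * η) / (3/4*δ) / (3/4*δ) := by
      refine hC.2.1 _ _ (r - 29/4*δ) (3*s/8) (3/4*δ) (by positivity) hD1 h1 p ?_
      have : r - 29/4*δ - 3/4*δ = r - 8*δ := by ring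
      rw [this]
      exact Dom_mono le_rfl (by linarith) hp
    have h3 : ‖D2 (fun q => f' q - f q) p‖ ≤ K * (Λ^5 * η) / (s/8) := by
      refine hC.2.2.1 (fun q => f' q - f q) (K * (Λ^5 * η)) (r - 13/2*δ) (3*s/8) (s/8)
        (by positivity) hg hb p ?_
      have : 3*s/8 - s/8 = s/4 := by ring
      rw [this]
      exact Dom_mono (by linarith) le_rfl hp
    have h1p := h1 p (Dom_mono (by linarith) (by linarith) hp)
    rw [D1_sub hAo hf' hf hpA] at h1p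
    rw [D11_sub hD hAo hf' hf hpA] at h2
    rw [D2_sub hAo hf' hf hpA] at h3
    have hη0 := P.hη0
    have hΛ0 := N.Λ0
    refine ⟨?_, ?_, ?_, ?_⟩
    · exact (hb p hpA).trans (N.b K 5 hK0 (by linarith) (by norm_num))
    · calc ‖D1 f' p - D1 f p‖ ≤ K * (Λ^5 * η) / (3/4*δ) := h1p
        _ = (K * 4 / 3) * (Λ^5 * η) * (1/δ) := by field_simp
        _ ≤ (K * 4 / 3) * (Λ^5 * η) * Λ := by gcongr
        _ = (K * 4 / 3) * (Λ^6 * η) := by ring
        _ ≤ Λ^10 * η := N.b _ 6 (by positivity) (by linarith) (by norm_num)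
    · calc ‖D2 f' p - D2 f p‖ ≤ K * (Λ^5 * η) / (s/8) := h3
        _ = (K * 8) * (Λ^5 * η) * (1/s) := by field_simp
        _ ≤ (K * 8) * (Λ^5 * η) * Λ := by gcongr
        _ = (K * 8) * (Λ^6 * η) := by ring
        _ ≤ Λ^10 * η := N.b _ 6 (by positivity) (by linarith) (by norm_num)
    · calc ‖D1 (D1 f') p - D1 (D1 f) p‖ ≤ K * (Λ^5 * η) / (3/4*δ) / (3/4*δ) := h2
        _ = (K * 16 / 9) * (Λ^5 * η) * ((1/δ) * (1/δ)) := by field_simp; ring
        _ ≤ (K * 16 / 9) * (Λ^5 * η) * (Λ * Λ) := by gcongr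
        _ = (K * 16 / 9) * (Λ^7 * η) := by ring
        _ ≤ Λ^10 * η := N.b _ 7 (by positivity) (by linarith) (by norm_num)
  have hcu := hcau S.u (newS S κ E0 τ).u 2 (by norm_num) (by norm_num) (hS.hu.diff.mono hAr)
    hu'.diff hdu
  have hcv := hcau S.v (newS S κ E0 τ).v 5 (by norm_num) (by norm_num) (hS.hv.diff.mono hAr)
    hv'.diff hdv
  have hBA : Dom (r - 8*δ) (s/4) ⊆ A := Dom_mono (by linarith) (by linarith)
  have hBr : Dom (r - 8*δ) (s/4) ⊆ Dom r s := hBA.trans hAr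
  have hOs : Om (s/4) ⊆ Om s := Om_mono (by linarith)
  have hOs2 : Om (s/4) ⊆ Om (s/2) := Om_mono (by linarith)
  have tri : ∀ x y : ℂ, ‖y‖ ≤ c → ‖x - y‖ ≤ Λ^10 * η → ‖x‖ ≤ c + Λ^10 * η := by
    intro x y hy hxy
    have : x = y + (x - y) := by ring
    rw [this]
    exact (norm_add_le _ _).trans (add_le_add hy hxy)
  have hb2 : Λ^2 * η ≤ Λ^10 * η := by
    have := N.b 1 2 (by norm_num) (by norm_num) (by norm_num)
    linarith
  have hb3 : Λ^3 * η ≤ Λ^10 * η := by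
    have := N.b 1 3 (by norm_num) (by norm_num) (by norm_num)
    linarith
  have h10 : 0 ≤ Λ^10 * η := by
    have h1 := N.Λ0
    have h2 := P.hη0
    positivity
  refine ⟨⟨hu'.mono hBA, hv'.mono hBA, ?_, ?_, by linarith, ?_, ?_, ?_, ?_, ?_, ?_, ?_, ?_, hI2,
    hI3⟩, ⟨?_, ?_, ?_, ?_⟩⟩
  · -- a
    refine ⟨(hS.ha.diff.mono hOs).add (hE1.diff.mono hOs), fun w hw => ?_⟩
    change S.a (cj w) + deriv E0 (cj w) = cj (S.a w + deriv E0 w)
    rw [hS.ha.sym w (hOs hw), hE1.sym w (hOs hw)]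
    exact (map_add (starRingEnd ℂ) _ _).symm
  · -- γ
    refine ⟨((hS.hγ.diff.mono hOs).add (differentiableOn_id.mul (hE1.diff.mono hOs))).sub
      (hCor.hE.diff.mono hOs), fun w hw => ?_⟩
    change S.γ (cj w) + cj w * deriv E0 (cj w) - E0 (cj w) = cj (S.γ w + w * deriv E0 w - E0 w)
    rw [hS.hγ.sym w (hOs hw), hE1.sym w (hOs hw), hCor.hE.sym w (hOs hw)]
    simp only [map_add, map_sub, map_mul]
  · exact fun p hp => tri _ _ (hS.bu p (hBr hp)) (hcu p hp).1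
  · exact fun p hp => tri _ _ (hS.bu1 p (hBr hp)) (hcu p hp).2.1
  · exact fun p hp => tri _ _ (hS.bu2 p (hBr hp)) (hcu p hp).2.2.1
  · exact fun p hp => tri _ _ (hS.bu11 p (hBr hp)) (hcu p hp).2.2.2
  · exact fun p hp => tri _ _ (hS.bv1 p (hBr hp)) (hcv p hp).2.1
  · exact fun p hp => tri _ _ (hS.bv11 p (hBr hp)) (hcv p hp).2.2.2
  · intro w hw
    refine tri _ (S.a w - w) (hS.ba w (hOs hw)) ?_
    have : (newS S κ E0 τ).a w - w - (S.a w - w) = deriv E0 w := by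
      change S.a w + deriv E0 w - w - (S.a w - w) = _
      ring
    rw [this]
    exact (hT3 w (hOs2 hw)).1.trans hb2
  · intro w hw
    refine tri _ (deriv S.a w - 1) (hS.ba1 w (hOs hw)) ?_
    have hd1 : DifferentiableAt ℂ S.a w :=
      hS.ha.diff.differentiableAt ((isOpen_Om s).mem_nhds (hOs hw))
    have hd2 : DifferentiableAt ℂ (deriv E0) w :=
      hE1.diff.differentiableAt ((isOpen_Om s).mem_nhds (hOs hw))
    have h1 : deriv (newS S κ E0 τ).a w = deriv S.a w + deriv (deriv E0) w :=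
      deriv_fun_add hd1 hd2
    have : deriv (newS S κ E0 τ).a w - 1 - (deriv S.a w - 1) = deriv (deriv E0) w := by
      rw [h1]
      ring
    rw [this]
    exact (hT3 w (hOs2 hw)).2.trans hb3
  · exact fun p hp => (hcu p hp).1
  · exact fun p hp => (hcu p hp).2.1
  · exact fun p hp => (hcv p hp).2.1
  · intro w hw
    have : (newS S κ E0 τ).a w - S.a w = deriv E0 w := by
      change S.a w + deriv E0 w - S.a w = _
      ring
    rw [this]
    exact (hT3 w (hOs2 hw)).1.trans hb2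

end Helper64TW
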